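import Mathlib

open Set MeasureTheory

namespace R166

/-- Euclidean three-space. -/
abbrev E := EuclideanSpace ℝ (Fin 3)

/-- The section of `K` by the plane `x + span (e, f)`, in the coordinates given by the
orthonormal pair `e, f`. -/
def slice (K : Set E) (x e f : E) : Set (ℝ × ℝ) := {p | x + p.1 • e + p.2 • f ∈ K}

end R166
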