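import Mathlib

open Set MeasureTheory Topology

namespace R166.Transport

noncomputable section

/-- fibre of a planar set over `x` -/
def fib (C : Set (ℝ × ℝ)) (x : ℝ) : Set ℝ := {z | (x, z) ∈ C}

theorem fib_compact {C : Set (ℝ × ℝ)} (hc : IsCompact C) (x : ℝ) : IsCompact (fib C x) := by
  have h : fib C x = Prod.snd '' (C ∩ (Prod.fst ⁻¹' {x})) := by
    ext z
    constructor
    · intro hz
      exact ⟨(x, z), ⟨hz, rfl⟩, rfl⟩
    · rintro ⟨⟨a, b⟩, ⟨h1, h2⟩, rfl⟩
      have : a = x := h2
      subst this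
      exact h1
  rw [h]
  exact (hc.inter_right (isClosed_singleton.preimage continuous_fst)).image continuous_snd

theorem fib_convex {C : Set (ℝ × ℝ)} (hc : Convex ℝ C) (x : ℝ) : Convex ℝ (fib C x) := by
  intro z1 h1 z2 h2 a b ha hb hab
  have := hc h1 h2 ha hb hab
  have e : a • (x, z1) + b • (x, z2) = (x, a • z1 + b • z2) := by
    ext
    · simp [← add_mul, hab]
    · simp
  rw [e] at this
  exact this

def hi (C : Set (ℝ × ℝ)) (x : ℝ) : ℝ := sSup (fib C x)
def lw (C : Set (ℝ × ℝ)) (x : ℝ) : ℝ := sInf (fib C x)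
def len (C : Set (ℝ × ℝ)) (x : ℝ) : ℝ := hi C x - lw C x

theorem fib_eq {C : Set (ℝ × ℝ)} (hc : IsCompact C) (hv : Convex ℝ C) {x : ℝ}
    (hx : x ∈ Prod.fst '' C) : fib C x = Icc (lw C x) (hi C x) := by
  have hne : (fib C x).Nonempty := by
    obtain ⟨⟨a, b⟩, h, rfl⟩ := hx
    exact ⟨b, h⟩
  exact eq_Icc_of_connected_compact ⟨hne, (fib_convex hv x).isPreconnected⟩ (fib_compact hc x)

theorem lw_mem {C : Set (ℝ × ℝ)} (hc : IsCompact C) {x : ℝ}
    (hx : x ∈ Prod.fst '' C) : (x, lw C x) ∈ C := by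
  have hne : (fib C x).Nonempty := by
    obtain ⟨⟨a, b⟩, h, rfl⟩ := hx
    exact ⟨b, h⟩
  exact (fib_compact hc x).sInf_mem hne

theorem hi_mem {C : Set (ℝ × ℝ)} (hc : IsCompact C) {x : ℝ}
    (hx : x ∈ Prod.fst '' C) : (x, hi C x) ∈ C := by
  have hne : (fib C x).Nonempty := by
    obtain ⟨⟨a, b⟩, h, rfl⟩ := hx
    exact ⟨b, h⟩
  exact (fib_compact hc x).sSup_mem hne

theorem len_nonneg {C : Set (ℝ × ℝ)} (hc : IsCompact C) {x : ℝ}
    (hx : x ∈ Prod.fst '' C) : 0 ≤ len C x := by
  have := lw_mem hc hx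
  have h2 : lw C x ≤ hi C x := le_csSup (fib_compact hc x).bddAbove this
  unfold len; linarith

theorem len_concave {C : Set (ℝ × ℝ)} (hc : IsCompact C) (hv : Convex ℝ C) :
    ConcaveOn ℝ (Prod.fst '' C) (len C) := by
  have hP : Convex ℝ (Prod.fst '' C) := by
    have := hv.linear_image (LinearMap.fst ℝ ℝ ℝ)
    simpa using this
  refine ⟨hP, ?_⟩
  intro x hx y hy a b ha hb hab
  have h1 := hv (hi_mem hc hx) (hi_mem hc hy) ha hb hab
  have h2 := hv (lw_mem hc hx) (lw_mem hc hy) ha hb hab
  have h1' : a • hi C x + b • hi C y ∈ fib C (a • x + b • y) := h1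
  have h2' : a • lw C x + b • lw C y ∈ fib C (a • x + b • y) := h2
  have h3 : a • hi C x + b • hi C y ≤ hi C (a • x + b • y) :=
    le_csSup (fib_compact hc _).bddAbove h1'
  have h4 : lw C (a • x + b • y) ≤ a • lw C x + b • lw C y :=
    csInf_le (fib_compact hc _).bddBelow h2'
  simp only [smul_eq_mul] at *
  unfold len
  linarith

theorem vol_eq {C : Set (ℝ × ℝ)} (hc : IsCompact C) (hv : Convex ℝ C) :
    volume C = ∫⁻ x in Prod.fst '' C, ENNReal.ofReal (len C x) := by
  have hm : MeasurableSet C := hc.isClosed.measurableSet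
  have hPm : MeasurableSet (Prod.fst '' C) := (hc.image continuous_fst).isClosed.measurableSet
  rw [Measure.volume_eq_prod, Measure.prod_apply hm, ← lintegral_indicator hPm]
  congr 1
  ext x
  by_cases hx : x ∈ Prod.fst '' C
  · rw [indicator_of_mem hx]
    have : Prod.mk x ⁻¹' C = fib C x := rfl
    rw [this, fib_eq hc hv hx, Real.volume_Icc]
    rfl
  · rw [indicator_of_notMem hx]
    have : Prod.mk x ⁻¹' C = ∅ := by
      ext z
      simp only [mem_preimage, mem_empty_iff_false, iff_false]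
      intro h
      exact hx ⟨_, h, rfl⟩
    rw [this, measure_empty]

/-- TL1 -/
theorem tl1 {C : Set (ℝ × ℝ)} (hc : IsCompact C) (hv : Convex ℝ C) {s : ℝ} (hs : 0 < s)
    (hvol : volume C = ENNReal.ofReal s) :
    ∃ r g lo : ℝ → ℝ, ContinuousOn g (Ioo 0 s) ∧ ∀ m ∈ Ioo 0 s, 0 < g m ∧
      HasDerivAt r (1 / g m) m ∧ ∀ z ∈ Icc (lo m) (lo m + g m), (r m, z) ∈ C := by
  classical
  set P := Prod.fst '' C with hPdef
  have hne : C.Nonempty := by
    by_contra h
    rw [not_nonempty_iff_eq_empty] at h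
    rw [h, measure_empty] at hvol
    have : 0 < ENNReal.ofReal s := ENNReal.ofReal_pos.2 hs
    rw [← hvol] at this
    exact lt_irrefl _ this
  have hPc : IsCompact P := hc.image continuous_fst
  have hPv : Convex ℝ P := (len_concave hc hv).1
  have hPne : P.Nonempty := hne.image _
  obtain ⟨a, b, hab⟩ : ∃ a b, P = Icc a b :=
    ⟨_, _, eq_Icc_of_connected_compact ⟨hPne, hPv.isPreconnected⟩ hPc⟩
  have hle : a ≤ b := by
    rw [hab] at hPne
    exact nonempty_Icc.1 hPne
  have hvolI : volume C = ∫⁻ x in Icc a b, ENNReal.ofReal (len C x) := by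
    rw [vol_eq hc hv, ← hPdef, hab]
  have hcon : ConcaveOn ℝ (Icc a b) (len C) := hab ▸ len_concave hc hv
  have hnn : ∀ x ∈ Icc a b, 0 ≤ len C x := fun x hx => len_nonneg hc (by rw [← hPdef, hab]; exact hx)
  -- a point with positive length
  obtain ⟨x0, hx0, hx0p⟩ : ∃ x ∈ Icc a b, 0 < len C x := by
    by_contra h
    push Not at h
    have : ∫⁻ x in Icc a b, ENNReal.ofReal (len C x) = 0 := by
      rw [← lintegral_zero (μ := volume.restrict (Icc a b))]
      refine setLIntegral_congr_fun measurableSet_Icc ?_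
      intro x hx
      exact ENNReal.ofReal_of_nonpos (h x hx)
    rw [← hvolI, hvol] at this
    rw [ENNReal.ofReal_eq_zero] at this
    linarith
  have hpos : ∀ x ∈ Ioo a b, 0 < len C x := by
    intro x hx
    rcases lt_trichotomy x x0 with h | h | h
    · have h1 : 0 < x0 - a := by linarith [hx.1]
      have w1 : 0 ≤ (x0 - x) / (x0 - a) := by apply div_nonneg <;> linarith
      have w2 : 0 ≤ (x - a) / (x0 - a) := by apply div_nonneg <;> linarith [hx.1]
      have w3 : (x0 - x) / (x0 - a) + (x - a) / (x0 - a) = 1 := by field_simp; ring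
      have h2 := hcon.2 (left_mem_Icc.2 hle) hx0 w1 w2 w3
      have h3 : ((x0 - x) / (x0 - a)) • a + ((x - a) / (x0 - a)) • x0 = x := by
        simp only [smul_eq_mul]
        field_simp
        ring
      rw [h3] at h2
      simp only [smul_eq_mul] at h2
      have h4 : 0 ≤ (x0 - x) / (x0 - a) * len C a :=
        mul_nonneg (by apply div_nonneg <;> linarith) (hnn a (left_mem_Icc.2 hle))
      have h5 : 0 < (x - a) / (x0 - a) * len C x0 :=
        mul_pos (by apply div_pos <;> linarith [hx.1]) hx0p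
      linarith
    · rw [h]; exact hx0p
    · have h1 : 0 < b - x0 := by linarith [hx.2]
      have w1 : 0 ≤ (b - x) / (b - x0) := by apply div_nonneg <;> linarith [hx.2]
      have w2 : 0 ≤ (x - x0) / (b - x0) := by apply div_nonneg <;> linarith [hx.2]
      have w3 : (b - x) / (b - x0) + (x - x0) / (b - x0) = 1 := by field_simp; ring
      have h2 := hcon.2 hx0 (right_mem_Icc.2 hle) w1 w2 w3
      have h3 : ((b - x) / (b - x0)) • x0 + ((x - x0) / (b - x0)) • b = x := by
        simp only [smul_eq_mul]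
        field_simp
        ring
      rw [h3] at h2
      simp only [smul_eq_mul] at h2
      have h4 : 0 ≤ (x - x0) / (b - x0) * len C b :=
        mul_nonneg (by apply div_nonneg <;> linarith) (hnn b (right_mem_Icc.2 hle))
      have h5 : 0 < (b - x) / (b - x0) * len C x0 :=
        mul_pos (by apply div_pos <;> linarith [hx.2]) hx0p
      linarith
  have hcontG : ContinuousOn (len C) (Ioo a b) :=
    (hcon.subset Ioo_subset_Icc_self (convex_Ioo a b)).continuousOn isOpen_Ioo
  -- integrability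
  obtain ⟨R, hR⟩ : ∃ R, ∀ x ∈ Icc a b, len C x ≤ R := by
    obtain ⟨R, hR⟩ := (hc.image continuous_snd).isBounded.subset_closedBall 0
    refine ⟨2 * R, fun x hx => ?_⟩
    have hx' : x ∈ Prod.fst '' C := by rw [← hPdef, hab]; exact hx
    have h1 := hR ⟨_, hi_mem hc hx', rfl⟩
    have h2 := hR ⟨_, lw_mem hc hx', rfl⟩
    simp only [Metric.mem_closedBall, dist_zero_right, Real.norm_eq_abs] at h1 h2
    have h3 := abs_le.1 h1
    have h4 := abs_le.1 h2
    unfold len
    linarith
  have hint : IntegrableOn (len C) (Ioo a b) := by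
    refine IntegrableOn.of_bound (by simp) ?_ R ?_
    · exact hcontG.aestronglyMeasurable measurableSet_Ioo
    · refine (ae_restrict_iff' measurableSet_Ioo).2 (Filter.Eventually.of_forall fun x hx => ?_)
      have hx' := Ioo_subset_Icc_self hx
      rw [Real.norm_eq_abs, abs_of_nonneg (hnn x hx')]
      exact hR x hx'
  have hintI : IntegrableOn (len C) (Icc a b) := by
    rwa [integrableOn_Icc_iff_integrableOn_Ioo]
  have hintab : IntervalIntegrable (len C) volume a b := by
    rw [intervalIntegrable_iff_integrableOn_Icc_of_le hle]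
    exact hintI
  have hlt : a < b := by
    rcases hle.lt_or_eq with h | h
    · exact h
    · exfalso
      rw [← h] at hvolI
      simp only [Icc_self] at hvolI
      rw [setLIntegral_measure_zero _ _ (by simp)] at hvolI
      rw [hvolI] at hvol
      have : 0 < ENNReal.ofReal s := ENNReal.ofReal_pos.2 hs
      rw [← hvol] at this
      exact lt_irrefl _ this
  set F : ℝ → ℝ := fun x => ∫ t in a..x, len C t with hF
  have hFa : F a = 0 := by simp [hF]
  have hFb : F b = s := by
    have h1 : ENNReal.ofReal (∫ x in Icc a b, len C x) = ENNReal.ofReal s := by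
      rw [← hvol, hvolI]
      rw [ofReal_integral_eq_lintegral_ofReal hintI]
      exact (ae_restrict_iff' measurableSet_Icc).2 (Filter.Eventually.of_forall fun x hx => hnn x hx)
    have h2 : 0 ≤ ∫ x in Icc a b, len C x := setIntegral_nonneg measurableSet_Icc hnn
    rw [ENNReal.ofReal_eq_ofReal_iff h2 hs.le] at h1
    rw [hF]
    simp only
    rw [intervalIntegral.integral_of_le hle, ← integral_Icc_eq_integral_Ioc]
    exact h1
  have hFc : ContinuousOn F (Icc a b) :=
    intervalIntegral.continuousOn_primitive_Icc hintI |>.congr (by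
      intro x hx
      simp only [hF]
      rw [intervalIntegral.integral_of_le hx.1, integral_Icc_eq_integral_Ioc])
  have hFd : ∀ x ∈ Ioo a b, HasDerivAt F (len C x) x := by
    intro x hx
    apply intervalIntegral.integral_hasDerivAt_right
    · exact hintab.mono_set (by
        rw [uIcc_of_le hx.1.le, uIcc_of_le hle]
        exact Icc_subset_Icc_right hx.2.le)
    · exact hcontG.stronglyMeasurableAtFilter isOpen_Ioo x hx
    · exact hcontG.continuousAt (Ioo_mem_nhds hx.1 hx.2)
  have hFm : StrictMonoOn F (Icc a b) := by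
    refine strictMonoOn_of_deriv_pos (convex_Icc a b) hFc ?_
    rw [interior_Icc]
    intro x hx
    rw [(hFd x hx).deriv]
    exact hpos x hx
  -- inverse
  have hex : ∀ m ∈ Ioo 0 s, ∃ x ∈ Ioo a b, F x = m := by
    intro m hm
    have := intermediate_value_Ioo hle hFc
    rw [hFa, hFb] at this
    exact this hm
  set r : ℝ → ℝ := fun m => if h : ∃ x ∈ Ioo a b, F x = m then h.choose else 0 with hr
  have hr1 : ∀ m ∈ Ioo 0 s, r m ∈ Ioo a b ∧ F (r m) = m := by
    intro m hm
    have h := hex m hm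
    simp only [hr]
    rw [dif_pos h]
    exact h.choose_spec
  have hr2 : ∀ x ∈ Ioo a b, F x ∈ Ioo 0 s ∧ r (F x) = x := by
    intro x hx
    have hx' := Ioo_subset_Icc_self hx
    have h1 : F x ∈ Ioo 0 s := by
      constructor
      · rw [← hFa]; exact hFm (left_mem_Icc.2 hle) hx' hx.1
      · rw [← hFb]; exact hFm hx' (right_mem_Icc.2 hle) hx.2
    refine ⟨h1, ?_⟩
    have h2 := hr1 _ h1
    exact hFm.injOn (Ioo_subset_Icc_self h2.1) hx' h2.2
  have hrmono : MonotoneOn r (Ioo 0 s) := by
    intro m hm n hn hmn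
    by_contra h
    push Not at h
    have h3 := hFm (Ioo_subset_Icc_self (hr1 n hn).1) (Ioo_subset_Icc_self (hr1 m hm).1) h
    have h4 : F (r n) = n := (hr1 n hn).2
    have h5 : F (r m) = m := (hr1 m hm).2
    linarith
  have himg : r '' (Ioo 0 s) = Ioo a b := by
    ext x
    constructor
    · rintro ⟨m, hm, rfl⟩
      exact (hr1 m hm).1
    · intro hx
      exact ⟨F x, (hr2 x hx).1, (hr2 x hx).2⟩
  have hrc : ∀ m ∈ Ioo 0 s, ContinuousAt r m := by
    intro m hm
    refine continuousAt_of_monotoneOn_of_image_mem_nhds hrmono (Ioo_mem_nhds hm.1 hm.2) ?_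
    rw [himg]
    exact Ioo_mem_nhds (hr1 m hm).1.1 (hr1 m hm).1.2
  refine ⟨r, fun m => len C (r m), fun m => lw C (r m), ?_, ?_⟩
  · exact hcontG.comp (fun m hm => (hrc m hm).continuousWithinAt) (fun m hm => (hr1 m hm).1)
  · intro m hm
    have hrm := (hr1 m hm).1
    have hp := hpos _ hrm
    refine ⟨hp, ?_, ?_⟩
    · rw [one_div]
      refine HasDerivAt.of_local_left_inverse (f := F) (hrc m hm) (hFd _ hrm) hp.ne' ?_
      filter_upwards [Ioo_mem_nhds hm.1 hm.2] with y hy
      exact (hr1 y hy).2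
    · intro z hz
      have hx' : r m ∈ Prod.fst '' C := by
        rw [← hPdef, hab]; exact Ioo_subset_Icc_self hrm
      have h1 : z ∈ fib C (r m) := by
        rw [fib_eq hc hv hx']
        refine ⟨hz.1, ?_⟩
        have := hz.2
        simp only [len] at this
        linarith
      exact h1

/-- TL2 -/
theorem tl2 {C : Set (ℝ × ℝ)} (hm : MeasurableSet C) {s : ℝ}
    (σ σ' lo l w : ℝ → ℝ)
    (hσ : ∀ m ∈ Ioo 0 s, HasDerivAt σ (σ' m) m) (hσ' : ∀ m ∈ Ioo 0 s, 0 < σ' m)
    (hfib : ∀ m ∈ Ioo 0 s, ∀ z ∈ Icc (lo m) (lo m + l m), (σ m, z) ∈ C)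
    (hw : ∀ m ∈ Ioo 0 s, w m ≤ σ' m * l m) :
    ∫⁻ m in Ioo 0 s, ENNReal.ofReal (w m) ≤ volume C := by
  have hinj : InjOn σ (Ioo 0 s) := by
    refine StrictMonoOn.injOn (strictMonoOn_of_deriv_pos (convex_Ioo 0 s) ?_ ?_)
    · exact fun m hm => (hσ m hm).continuousAt.continuousWithinAt
    · rw [interior_Ioo]
      intro m hm
      rw [(hσ m hm).deriv]
      exact hσ' m hm
  rw [Measure.volume_eq_prod, Measure.prod_apply hm]
  calc ∫⁻ m in Ioo 0 s, ENNReal.ofReal (w m)
      ≤ ∫⁻ m in Ioo 0 s, ENNReal.ofReal |σ' m| * volume (Prod.mk (σ m) ⁻¹' C) := by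
        refine setLIntegral_mono' measurableSet_Ioo ?_
        intro m hm
        rw [abs_of_pos (hσ' m hm)]
        calc ENNReal.ofReal (w m) ≤ ENNReal.ofReal (σ' m * l m) := ENNReal.ofReal_le_ofReal (hw m hm)
          _ = ENNReal.ofReal (σ' m) * ENNReal.ofReal (l m) := ENNReal.ofReal_mul (hσ' m hm).le
          _ ≤ ENNReal.ofReal (σ' m) * volume (Prod.mk (σ m) ⁻¹' C) := by
            gcongr
            have h1 : Icc (lo m) (lo m + l m) ⊆ Prod.mk (σ m) ⁻¹' C := fun z hz => hfib m hm z hz
            calc ENNReal.ofReal (l m) = volume (Icc (lo m) (lo m + l m)) := by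
                  rw [Real.volume_Icc]; congr 1; ring
              _ ≤ _ := measure_mono h1
    _ = ∫⁻ x in σ '' Ioo 0 s, volume (Prod.mk x ⁻¹' C) :=
        (lintegral_image_eq_lintegral_abs_deriv_mul measurableSet_Ioo
          (fun m hm => (hσ m hm).hasDerivWithinAt) hinj
          (fun x => volume (Prod.mk x ⁻¹' C))).symm
    _ ≤ ∫⁻ x, volume (Prod.mk x ⁻¹' C) := setLIntegral_le_lintegral _ _

end

end R166.Transport
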