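import Mathlib
import Pool.Agent.R166.Transport
import Pool.Agent.R166.Basic

open Set MeasureTheory Topology

namespace R166

noncomputable section

open Transport

open scoped InnerProductSpace

theorem slice_convex {D : Set E} (hv : Convex ℝ D) (x e f : E) : Convex ℝ (slice D x e f) := by
  intro p hp q hq a b ha hb hab
  have h := hv hp hq ha hb hab
  show x + (a • p + b • q).1 • e + (a • p + b • q).2 • f ∈ D
  convert h using 1
  simp only [Prod.fst_add, Prod.smul_fst, Prod.snd_add, Prod.smul_snd, smul_eq_mul]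
  have hb' : b = 1 - a := by linarith
  subst hb'
  module

theorem slice_closed {D : Set E} (hc : IsClosed D) (x e f : E) : IsClosed (slice D x e f) := by
  have : Continuous fun p : ℝ × ℝ => x + p.1 • e + p.2 • f := by fun_prop
  exact hc.preimage this

theorem slice_coord {x e f : E} (he : ‖e‖ = 1) (hf : ‖f‖ = 1) (hef : ⟪e, f⟫_ℝ = 0) (p : ℝ × ℝ) :
    ⟪x + p.1 • e + p.2 • f - x, e⟫_ℝ = p.1 ∧ ⟪x + p.1 • e + p.2 • f - x, f⟫_ℝ = p.2 := by
  have h1 : x + p.1 • e + p.2 • f - x = p.1 • e + p.2 • f := by abel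
  have hfe : ⟪f, e⟫_ℝ = 0 := by rw [real_inner_comm]; exact hef
  rw [h1]
  constructor
  · rw [inner_add_left, real_inner_smul_left, real_inner_smul_left, hfe,
      real_inner_self_eq_norm_sq, he]
    ring
  · rw [inner_add_left, real_inner_smul_left, real_inner_smul_left, hef,
      real_inner_self_eq_norm_sq, hf]
    ring

theorem slice_compact {D : Set E} (hc : IsCompact D) {x e f : E} (he : ‖e‖ = 1) (hf : ‖f‖ = 1)
    (hef : ⟪e, f⟫_ℝ = 0) : IsCompact (slice D x e f) := by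
  obtain ⟨R, hR⟩ := hc.isBounded.subset_closedBall x
  refine Metric.isCompact_of_isClosed_isBounded (slice_closed hc.isClosed x e f) ?_
  refine (Metric.isBounded_closedBall (x := (0 : ℝ × ℝ)) (r := R)).subset ?_
  intro p hp
  have h1 := hR hp
  rw [Metric.mem_closedBall, dist_eq_norm] at h1
  obtain ⟨h2, h3⟩ := slice_coord (x := x) he hf hef p
  have h4 := abs_real_inner_le_norm (x + p.1 • e + p.2 • f - x) e
  have h5 := abs_real_inner_le_norm (x + p.1 • e + p.2 • f - x) f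
  rw [h2, he, mul_one] at h4
  rw [h3, hf, mul_one] at h5
  rw [mem_closedBall_zero_iff, Prod.norm_def]
  simp only [Real.norm_eq_abs]
  exact max_le (h4.trans h1) (h5.trans h1)

/-- TL3 -/
theorem tl3 {D : Set E} (hv : Convex ℝ D) {O1 e1 O2 e2 X e z : E} {r1 g1 l1 r2 g2 l2 t σ : ℝ}
    (h1 : ∀ ζ ∈ Icc l1 (l1 + g1), (r1, ζ) ∈ slice D O1 e1 z)
    (h2 : ∀ ζ ∈ Icc l2 (l2 + g2), (r2, ζ) ∈ slice D O2 e2 z)
    (p1 : 0 < g1) (p2 : 0 < g2) (ht0 : 0 ≤ t) (ht1 : t ≤ 1)
    (hX : X + σ • e = (1 - t) • (O1 + r1 • e1) + t • (O2 + r2 • e2)) :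
    ∀ ζ ∈ Icc ((1 - t) * l1 + t * l2) ((1 - t) * l1 + t * l2 + ((1 - t) * g1 + t * g2)),
      (σ, ζ) ∈ slice D X e z := by
  intro ζ hζ
  have hl : 0 < (1 - t) * g1 + t * g2 := by
    rcases ht0.lt_or_eq with h | h
    · have : 0 < t * g2 := mul_pos h p2
      have : 0 ≤ (1 - t) * g1 := mul_nonneg (by linarith) p1.le
      linarith
    · rw [← h]; simp; exact p1
  set a := (ζ - ((1 - t) * l1 + t * l2)) / ((1 - t) * g1 + t * g2) with ha
  have ha0 : 0 ≤ a := div_nonneg (by linarith [hζ.1]) hl.le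
  have ha1 : a ≤ 1 := by
    rw [ha, div_le_one hl]; linarith [hζ.2]
  have ha2 : a * ((1 - t) * g1 + t * g2) = ζ - ((1 - t) * l1 + t * l2) := by
    rw [ha]; field_simp
  have q1 := h1 (l1 + a * g1) ⟨by nlinarith, by nlinarith⟩
  have q2 := h2 (l2 + a * g2) ⟨by nlinarith, by nlinarith⟩
  have q3 := hv q1 q2 (by linarith : (0:ℝ) ≤ 1 - t) ht0 (by ring)
  show X + σ • e + ζ • z ∈ D
  convert q3 using 1
  have hz : ζ = (1 - t) * (l1 + a * g1) + t * (l2 + a * g2) := by linarith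
  rw [hX, hz]
  module

/-- The maximality hypothesis. -/
def MaxArea (D : Set E) (s : ℝ) : Prop :=
  ∀ x e f : E, ‖e‖ = 1 → ‖f‖ = 1 → ⟪e, f⟫_ℝ = 0 → volume (slice D x e f) ≤ ENNReal.ofReal s

theorem norm_comb {e n : E} (he : ‖e‖ = 1) (hn : ‖n‖ = 1) (hen : ⟪e, n⟫_ℝ = 0) (a b : ℝ) :
    ‖a • e + b • n‖ ^ 2 = a ^ 2 + b ^ 2 := by
  rw [norm_add_sq_real, norm_smul, norm_smul, he, hn, real_inner_smul_left, real_inner_smul_right,
    hen]
  simp

/-- Tilting in the parallel case. -/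
theorem tiltA {D : Set E} (hc : IsCompact D) (hv : Convex ℝ D) {s : ℝ} (hs : 0 < s)
    (hmax : MaxArea D s) {x e z n : E} {h : ℝ} (he : ‖e‖ = 1) (hz : ‖z‖ = 1) (hn : ‖n‖ = 1)
    (hez : ⟪e, z⟫_ℝ = 0) (hen : ⟪e, n⟫_ℝ = 0) (hnz : ⟪n, z⟫_ℝ = 0) (hh : h ≠ 0)
    (r1 r2 g l1 l2 : ℝ → ℝ) (k : ℝ) (hk : 0 ≤ k)
    (hg : ∀ m ∈ Ioo 0 s, 0 < g m)
    (hr1 : ∀ m ∈ Ioo 0 s, HasDerivAt r1 (1 / g m) m)
    (hrr : ∀ m ∈ Ioo 0 s, r2 m = r1 m + k)
    (h1 : ∀ m ∈ Ioo 0 s, ∀ ζ ∈ Icc (l1 m) (l1 m + g m), (r1 m, ζ) ∈ slice D x e z)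
    (h2 : ∀ m ∈ Ioo 0 s, ∀ ζ ∈ Icc (l2 m) (l2 m + g m), (r2 m, ζ) ∈ slice D (x + h • n) e z) :
    False := by
  obtain ⟨B1, hB1⟩ := (slice_compact hc (x := x) he hz hez).isBounded.subset_closedBall 0
  obtain ⟨B2, hB2⟩ := (slice_compact hc (x := x + h • n) he hz hez).isBounded.subset_closedBall 0
  have b1 : ∀ m ∈ Ioo 0 s, -B1 ≤ r1 m := by
    intro m hm
    have := hB1 (h1 m hm (l1 m) ⟨le_rfl, by linarith [hg m hm]⟩)
    rw [mem_closedBall_zero_iff, Prod.norm_def] at this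
    have := (le_max_left _ _).trans this
    simp only [Real.norm_eq_abs] at this
    exact (abs_le.1 this).1
  have b2 : ∀ m ∈ Ioo 0 s, r2 m ≤ B2 := by
    intro m hm
    have := hB2 (h2 m hm (l2 m) ⟨le_rfl, by linarith [hg m hm]⟩)
    rw [mem_closedBall_zero_iff, Prod.norm_def] at this
    have := (le_max_left _ _).trans this
    simp only [Real.norm_eq_abs] at this
    exact (abs_le.1 this).2
  set ρ1 := -B1 - 1 with hρ1
  set ρ2 := B2 + 1 with hρ2
  set R := ρ2 - ρ1 with hR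
  have hRk : 0 < R - k := by
    have hm : s / 2 ∈ Ioo 0 s := ⟨by linarith, by linarith⟩
    have := b1 _ hm
    have := b2 _ hm
    have := hrr _ hm
    rw [hR]; linarith
  have hR0 : 0 < R := by linarith
  set L := Real.sqrt (R ^ 2 + h ^ 2) with hL
  have hh2 : 0 < h ^ 2 := by positivity
  have hLsq : L ^ 2 = R ^ 2 + h ^ 2 := Real.sq_sqrt (by positivity)
  have hLR : R < L := by
    rw [hL]
    apply Real.lt_sqrt_of_sq_lt
    linarith
  have hL0 : 0 < L := by linarith
  set e' := (R / L) • e + (h / L) • n with he'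
  have hne' : ‖e'‖ = 1 := by
    have h3 := norm_comb he hn hen (R / L) (h / L)
    have h4 : (R / L) ^ 2 + (h / L) ^ 2 = 1 := by
      field_simp
      linarith
    rw [h4] at h3
    have h5 : 0 ≤ ‖e'‖ := norm_nonneg _
    nlinarith
  have hez' : ⟪e', z⟫_ℝ = 0 := by
    rw [he', inner_add_left, real_inner_smul_left, real_inner_smul_left, hez, hnz]
    ring
  have key := tl2 (slice_closed hc.isClosed (x + ρ1 • e) e' z).measurableSet (s := s)
    (fun m => L * ((r1 m - ρ1) / (R - k))) (fun m => L * ((1 / g m) / (R - k)))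
    (fun m => (1 - (r1 m - ρ1) / (R - k)) * l1 m + (r1 m - ρ1) / (R - k) * l2 m)
    (fun m => (1 - (r1 m - ρ1) / (R - k)) * g m + (r1 m - ρ1) / (R - k) * g m)
    (fun m => L / (R - k))
    (by
      intro m hm
      have := ((hr1 m hm).sub_const ρ1).div_const (R - k)
      exact this.const_mul L)
    (by
      intro m hm
      have := hg m hm
      positivity)
    (by
      intro m hm
      have hgm := hg m hm
      have t0 : 0 ≤ (r1 m - ρ1) / (R - k) := div_nonneg (by linarith [b1 m hm]) hRk.le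
      have t1 : (r1 m - ρ1) / (R - k) ≤ 1 := by
        rw [div_le_one hRk]
        have := hrr m hm
        have := b2 m hm
        linarith
      refine tl3 hv (h1 m hm) (h2 m hm) hgm hgm t0 t1 ?_
      set t := (r1 m - ρ1) / (R - k) with ht
      have ht' : t * (R - k) = r1 m - ρ1 := by rw [ht]; field_simp
      have c1 : ρ1 + t * R = (1 - t) * r1 m + t * r2 m := by
        rw [hrr m hm]; linarith
      have c2 : (L * t) • e' = (t * R) • e + (t * h) • n := by
        rw [he', smul_add, smul_smul, smul_smul]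
        congr 2 <;> field_simp
      calc x + ρ1 • e + (L * t) • e' = x + (ρ1 + t * R) • e + (t * h) • n := by
            rw [c2]; module
        _ = x + ((1 - t) * r1 m + t * r2 m) • e + (t * h) • n := by rw [c1]
        _ = _ := by module)
    (by
      intro m hm
      have hgm := hg m hm
      apply le_of_eq
      field_simp
      ring)
  have h3 : ∫⁻ m in Ioo 0 s, ENNReal.ofReal (L / (R - k)) = ENNReal.ofReal (L / (R - k) * s) := by
    rw [setLIntegral_const, Real.volume_Ioo, ENNReal.ofReal_mul (by positivity)]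
    simp
  rw [h3] at key
  have h4 := key.trans (hmax _ _ _ hne' hz hez')
  rw [ENNReal.ofReal_le_ofReal_iff hs.le] at h4
  have h5 : 1 < L / (R - k) := by
    rw [one_lt_div hRk]; linarith
  nlinarith

theorem coreA {D : Set E} (hc : IsCompact D) (hv : Convex ℝ D) {s : ℝ} (hs : 0 < s)
    (hmax : MaxArea D s) {x e z n : E} {h : ℝ} (he : ‖e‖ = 1) (hz : ‖z‖ = 1) (hn : ‖n‖ = 1)
    (hez : ⟪e, z⟫_ℝ = 0) (hen : ⟪e, n⟫_ℝ = 0) (hnz : ⟪n, z⟫_ℝ = 0) (hh : h ≠ 0)
    (v1 : volume (slice D x e z) = ENNReal.ofReal s)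
    (v2 : volume (slice D (x + h • n) e z) = ENNReal.ofReal s) : False := by
  obtain ⟨r1, g1, l1, hg1c, H1⟩ := tl1 (slice_compact hc he hz hez) (slice_convex hv _ _ _) hs v1
  obtain ⟨r2, g2, l2, hg2c, H2⟩ := tl1 (slice_compact hc he hz hez) (slice_convex hv _ _ _) hs v2
  -- the middle plane
  have key := tl2 (slice_closed hc.isClosed (x + (h / 2) • n) e z).measurableSet (s := s)
    (fun m => (r1 m + r2 m) / 2) (fun m => (1 / g1 m + 1 / g2 m) / 2)
    (fun m => (1 - 1 / 2) * l1 m + 1 / 2 * l2 m)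
    (fun m => (1 - 1 / 2) * g1 m + 1 / 2 * g2 m)
    (fun m => 1 + (g1 m - g2 m) ^ 2 / (4 * g1 m * g2 m))
    (by
      intro m hm
      exact ((H1 m hm).2.1.add (H2 m hm).2.1).div_const 2)
    (by
      intro m hm
      have := (H1 m hm).1
      have := (H2 m hm).1
      positivity)
    (by
      intro m hm
      refine tl3 hv (H1 m hm).2.2 (H2 m hm).2.2 (H1 m hm).1 (H2 m hm).1 (by norm_num)
        (by norm_num) ?_
      module)
    (by
      intro m hm
      have := (H1 m hm).1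
      have := (H2 m hm).1
      apply le_of_eq
      field_simp
      ring)
  have hk1 := key.trans (hmax _ _ _ he hz hez)
  have hε0 : ∀ m ∈ Ioo 0 s, 0 ≤ (g1 m - g2 m) ^ 2 / (4 * g1 m * g2 m) := by
    intro m hm
    have := (H1 m hm).1
    have := (H2 m hm).1
    positivity
  have hεc : ContinuousOn (fun m => (g1 m - g2 m) ^ 2 / (4 * g1 m * g2 m)) (Ioo 0 s) := by
    refine ContinuousOn.div ((hg1c.sub hg2c).pow 2) ((continuousOn_const.mul hg1c).mul hg2c) ?_
    intro m hm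
    have := (H1 m hm).1
    have := (H2 m hm).1
    positivity
  have hk2 : ∫⁻ m in Ioo 0 s, ENNReal.ofReal ((g1 m - g2 m) ^ 2 / (4 * g1 m * g2 m)) = 0 := by
    have e1 : ∫⁻ m in Ioo 0 s, ENNReal.ofReal (1 + (g1 m - g2 m) ^ 2 / (4 * g1 m * g2 m))
        = ENNReal.ofReal s
          + ∫⁻ m in Ioo 0 s, ENNReal.ofReal ((g1 m - g2 m) ^ 2 / (4 * g1 m * g2 m)) := by
      rw [setLIntegral_congr_fun measurableSet_Ioo (g := fun m => 1 +
        ENNReal.ofReal ((g1 m - g2 m) ^ 2 / (4 * g1 m * g2 m)))]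
      · rw [lintegral_add_left measurable_const]
        simp
      · intro m hm
        simp only
        rw [ENNReal.ofReal_add (by norm_num) (hε0 m hm)]
        simp
    rw [e1] at hk1
    by_contra hne
    have : ENNReal.ofReal s < ENNReal.ofReal s
          + ∫⁻ m in Ioo 0 s, ENNReal.ofReal ((g1 m - g2 m) ^ 2 / (4 * g1 m * g2 m)) :=
      ENNReal.lt_add_right ENNReal.ofReal_ne_top hne
    exact absurd hk1 (not_le.2 this)
  have hae : (fun m => (g1 m - g2 m) ^ 2 / (4 * g1 m * g2 m)) =ᵐ[volume.restrict (Ioo 0 s)]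
      (fun _ => (0:ℝ)) := by
    rw [lintegral_eq_zero_iff' ?_] at hk2
    · have : ∀ᵐ m ∂(volume.restrict (Ioo 0 s)), m ∈ Ioo 0 s := ae_restrict_mem measurableSet_Ioo
      filter_upwards [hk2, this] with m h1 h2
      simp only [Pi.zero_apply, ENNReal.ofReal_eq_zero] at h1
      exact le_antisymm h1 (hε0 m h2)
    · exact (hεc.aemeasurable measurableSet_Ioo).ennreal_ofReal
  have heq := Measure.eqOn_open_of_ae_eq hae isOpen_Ioo hεc continuousOn_const
  have hgg : ∀ m ∈ Ioo 0 s, g1 m = g2 m := by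
    intro m hm
    have h0 := heq hm
    have h1 := (H1 m hm).1
    have h2 := (H2 m hm).1
    simp only at h0
    rw [div_eq_zero_iff] at h0
    rcases h0 with h0 | h0
    · have := pow_eq_zero_iff (two_ne_zero) |>.1 h0
      linarith
    · have : 0 < 4 * g1 m * g2 m := by positivity
      linarith
  obtain ⟨k, hk⟩ : ∃ k, ∀ m ∈ Ioo 0 s, r2 m = r1 m + k := by
    have hd : ∀ m ∈ Ioo 0 s, HasDerivAt (fun m => r2 m - r1 m) 0 m := by
      intro m hm
      have := (H2 m hm).2.1.sub (H1 m hm).2.1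
      rw [hgg m hm, sub_self] at this
      exact this
    refine ⟨r2 (s / 2) - r1 (s / 2), fun m hm => ?_⟩
    have hm2 : s / 2 ∈ Ioo 0 s := ⟨by linarith, by linarith⟩
    have := (convex_Ioo 0 s).is_const_of_fderivWithin_eq_zero (𝕜 := ℝ)
      (f := fun m => r2 m - r1 m)
      (fun m hm => (hd m hm).differentiableAt.differentiableWithinAt)
      (fun m hm => by
        have h1 := (hd m hm).hasFDerivAt.hasFDerivWithinAt (s := Ioo 0 s)
        rw [h1.fderivWithin (isOpen_Ioo.uniqueDiffWithinAt hm)]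
        ext
        simp) hm hm2
    linarith
  rcases le_total 0 k with hk0 | hk0
  · refine tiltA hc hv hs hmax he hz hn hez hen hnz hh r1 r2 g1 l1 l2 k hk0
      (fun m hm => (H1 m hm).1) (fun m hm => (H1 m hm).2.1) hk (fun m hm => (H1 m hm).2.2) ?_
    intro m hm
    rw [hgg m hm]
    exact (H2 m hm).2.2
  · refine tiltA hc hv hs hmax (x := x + h • n) (h := -h) he hz hn hez hen hnz
      (neg_ne_zero.2 hh) r2 r1 g2 l2 l1 (-k)
      (by linarith) (fun m hm => (H2 m hm).1) (fun m hm => (H2 m hm).2.1)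
      (fun m hm => by rw [hk m hm]; ring) (fun m hm => (H2 m hm).2.2) ?_
    intro m hm
    rw [← hgg m hm]
    have : x + h • n + (-h) • n = x := by module
    rw [this]
    exact (H1 m hm).2.2

end

end R166
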