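import Mathlib
import Pool.Agent.R166.MeyerCore

open Set MeasureTheory Topology

namespace R166

noncomputable section

open Transport

open scoped InnerProductSpace

def AA (r1 r2 : ℝ → ℝ) (m : ℝ) : ℝ := √(r2 m) / (r1 m * √(r1 m)) - 1 / r1 m

theorem AA_cont {r1 r2 : ℝ → ℝ} {s : ℝ} (c1 : ContinuousOn r1 (Ioo 0 s))
    (c2 : ContinuousOn r2 (Ioo 0 s)) (p1 : ∀ m ∈ Ioo 0 s, 0 < r1 m) :
    ContinuousOn (AA r1 r2) (Ioo 0 s) := by
  unfold AA
  refine ContinuousOn.sub (ContinuousOn.div c2.sqrt (c1.mul c1.sqrt) ?_)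
    (continuousOn_const.div c1 (fun m hm => (p1 m hm).ne'))
  intro m hm
  have := p1 m hm
  have := Real.sqrt_pos.2 this
  positivity

theorem AA_bdd {r1 r2 : ℝ → ℝ} {s ρ R : ℝ} (hρ : 0 < ρ)
    (p1 : ∀ m ∈ Ioo 0 s, ρ < r1 m) (q2 : ∀ m ∈ Ioo 0 s, r2 m ≤ R) :
    ∀ m ∈ Ioo 0 s, |AA r1 r2 m| ≤ √R / (ρ * √ρ) + 1 / ρ := by
  intro m hm
  have h1 := p1 m hm
  have h0 : 0 < r1 m := hρ.trans h1
  unfold AA
  have hsρ := Real.sqrt_pos.2 hρ
  have hs1 : √ρ ≤ √(r1 m) := Real.sqrt_le_sqrt h1.le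
  have hs2 : √(r2 m) ≤ √R := Real.sqrt_le_sqrt (q2 m hm)
  have hs3 : 0 ≤ √(r2 m) := Real.sqrt_nonneg _
  have a1 : 0 ≤ √(r2 m) / (r1 m * √(r1 m)) := by positivity
  have a2 : 0 ≤ 1 / r1 m := by positivity
  have a3 : √(r2 m) / (r1 m * √(r1 m)) ≤ √R / (ρ * √ρ) := by
    gcongr
  have a4 : 1 / r1 m ≤ 1 / ρ := by gcongr
  have a5 : 0 ≤ √R / (ρ * √ρ) := by positivity
  have a6 : 0 ≤ 1 / ρ := by positivity
  rw [abs_le]
  constructor <;> linarith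

theorem AA_int {r1 r2 : ℝ → ℝ} {s ρ R : ℝ} (hρ : 0 < ρ) (c1 : ContinuousOn r1 (Ioo 0 s))
    (c2 : ContinuousOn r2 (Ioo 0 s))
    (p1 : ∀ m ∈ Ioo 0 s, ρ < r1 m) (q2 : ∀ m ∈ Ioo 0 s, r2 m ≤ R) :
    IntegrableOn (AA r1 r2) (Ioo 0 s) ∧ IntegrableOn (fun m => (AA r1 r2 m) ^ 2) (Ioo 0 s) := by
  have hc := AA_cont c1 c2 (fun m hm => hρ.trans (p1 m hm))
  have hb := AA_bdd hρ p1 q2
  constructor
  · refine IntegrableOn.of_bound (by simp) (hc.aestronglyMeasurable measurableSet_Ioo)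
      (√R / (ρ * √ρ) + 1 / ρ) ?_
    exact (ae_restrict_iff' measurableSet_Ioo).2 (Filter.Eventually.of_forall fun m hm => hb m hm)
  · refine IntegrableOn.of_bound (by simp) ((hc.pow 2).aestronglyMeasurable measurableSet_Ioo)
      ((√R / (ρ * √ρ) + 1 / ρ) ^ 2) ?_
    refine (ae_restrict_iff' measurableSet_Ioo).2 (Filter.Eventually.of_forall fun m hm => ?_)
    rw [Real.norm_eq_abs, abs_pow]
    gcongr
    exact hb m hm

theorem B1 {D : Set E} (hc : IsCompact D) (hv : Convex ℝ D) {s : ℝ} (hs : 0 < s)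
    (hmax : MaxArea D s) {O e1 e2 z : E} (he2 : ‖e2‖ = 1) (hz : ‖z‖ = 1)
    (hez : ⟪e2, z⟫_ℝ = 0) (r1 r2 g1 g2 l1 l2 : ℝ → ℝ) {ρ R : ℝ} (hρ : 0 < ρ)
    (hg1 : ∀ m ∈ Ioo 0 s, 0 < g1 m) (hg2 : ∀ m ∈ Ioo 0 s, 0 < g2 m)
    (hr1 : ∀ m ∈ Ioo 0 s, HasDerivAt r1 (1 / g1 m) m)
    (hr2 : ∀ m ∈ Ioo 0 s, HasDerivAt r2 (1 / g2 m) m)
    (p1 : ∀ m ∈ Ioo 0 s, ρ < r1 m) (p2 : ∀ m ∈ Ioo 0 s, 0 < r2 m) (q2 : ∀ m ∈ Ioo 0 s, r2 m ≤ R)
    (h1 : ∀ m ∈ Ioo 0 s, ∀ ζ ∈ Icc (l1 m) (l1 m + g1 m), (r1 m, ζ) ∈ slice D O e1 z)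
    (h2 : ∀ m ∈ Ioo 0 s, ∀ ζ ∈ Icc (l2 m) (l2 m + g2 m), (r2 m, ζ) ∈ slice D O e2 z) :
    2 * (∫ m in Ioo 0 s, AA r1 r2 m) + ρ * (∫ m in Ioo 0 s, (AA r1 r2 m) ^ 2) ≤ 0 := by
  have c1 : ContinuousOn r1 (Ioo 0 s) := fun m hm => (hr1 m hm).continuousAt.continuousWithinAt
  have c2 : ContinuousOn r2 (Ioo 0 s) := fun m hm => (hr2 m hm).continuousAt.continuousWithinAt
  obtain ⟨i1, i2⟩ := AA_int hρ c1 c2 p1 q2
  have key := tl2 (slice_closed hc.isClosed (O + ρ • e1) e2 z).measurableSet (s := s)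
    (fun m => r2 m * (1 - ρ / r1 m))
    (fun m => 1 / g2 m * (1 - ρ / r1 m) + r2 m * (ρ * (1 / g1 m) / (r1 m) ^ 2))
    (fun m => (1 - (1 - ρ / r1 m)) * l1 m + (1 - ρ / r1 m) * l2 m)
    (fun m => (1 - (1 - ρ / r1 m)) * g1 m + (1 - ρ / r1 m) * g2 m)
    (fun m => (1 + ρ * AA r1 r2 m) ^ 2)
    (by
      intro m hm
      have h0 : r1 m ≠ 0 := (hρ.trans (p1 m hm)).ne'
      have h5 : HasDerivAt (fun m => 1 - ρ / r1 m) (-((0 * r1 m - ρ * (1 / g1 m)) / r1 m ^ 2)) m :=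
        ((hasDerivAt_const m ρ).div (hr1 m hm) h0).const_sub 1
      have h3 : HasDerivAt (fun m => r2 m * (1 - ρ / r1 m)) _ m := (hr2 m hm).mul h5
      refine h3.congr_deriv ?_
      ring)
    (by
      intro m hm
      have a1 := hg1 m hm
      have a2 := hg2 m hm
      have a3 := p1 m hm
      have a4 : 0 < r1 m := hρ.trans a3
      have a5 := p2 m hm
      have a6 : 0 < 1 - ρ / r1 m := by
        rw [sub_pos, div_lt_one a4]; exact a3
      positivity)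
    (by
      intro m hm
      have a1 := hg1 m hm
      have a2 := hg2 m hm
      have a3 := p1 m hm
      have a4 : 0 < r1 m := hρ.trans a3
      have a6 : 0 < 1 - ρ / r1 m := by
        rw [sub_pos, div_lt_one a4]; exact a3
      have a7 : 0 < ρ / r1 m := by positivity
      refine tl3 hv (h1 m hm) (h2 m hm) a1 a2 a6.le (by linarith) ?_
      have e1' : ρ = (ρ / r1 m) * r1 m := by field_simp
      set q := ρ / r1 m with hq
      rw [e1']
      module)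
    (by
      intro m hm
      have a1 := hg1 m hm
      have a2 := hg2 m hm
      have a3 := p1 m hm
      have a4 : 0 < r1 m := hρ.trans a3
      have a5 := p2 m hm
      simp only [AA]
      obtain ⟨X, hX, hX0⟩ : ∃ X, X ^ 2 = r1 m ∧ 0 < X :=
        ⟨√(r1 m), Real.sq_sqrt a4.le, Real.sqrt_pos.2 a4⟩
      obtain ⟨Y, hY, hY0⟩ : ∃ Y, Y ^ 2 = r2 m ∧ 0 < Y :=
        ⟨√(r2 m), Real.sq_sqrt a5.le, Real.sqrt_pos.2 a5⟩
      rw [← hX, ← hY, Real.sqrt_sq hX0.le, Real.sqrt_sq hY0.le]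
      have hXρ : ρ < X ^ 2 := by rw [hX]; exact a3
      have key2 : (1 / g2 m * (1 - ρ / X ^ 2) + Y ^ 2 * (ρ * (1 / g1 m) / (X ^ 2) ^ 2)) *
          ((1 - (1 - ρ / X ^ 2)) * g1 m + (1 - ρ / X ^ 2) * g2 m)
          - (1 + ρ * (Y / (X ^ 2 * X) - 1 / X ^ 2)) ^ 2
          = ρ * (X ^ 2 - ρ) * (g1 m * X - g2 m * Y) ^ 2 / (g1 m * g2 m * X ^ 6) := by
        field_simp
        ring
      have : 0 ≤ ρ * (X ^ 2 - ρ) * (g1 m * X - g2 m * Y) ^ 2 / (g1 m * g2 m * X ^ 6) := by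
        have : 0 < X ^ 2 - ρ := by linarith
        positivity
      linarith)
  have hk := key.trans (hmax _ _ _ he2 hz hez)
  have hint : IntegrableOn (fun m => (1 + ρ * AA r1 r2 m) ^ 2) (Ioo 0 s) := by
    have : (fun m => (1 + ρ * AA r1 r2 m) ^ 2) =
        fun m => (1 + (2 * ρ) * AA r1 r2 m) + ρ ^ 2 * (AA r1 r2 m) ^ 2 := by
      ext m; ring
    rw [this]
    refine Integrable.add (Integrable.add ?_ (i1.const_mul _)) (i2.const_mul _)
    exact integrableOn_const (by simp)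
  rw [← ofReal_integral_eq_lintegral_ofReal hint
    (Filter.Eventually.of_forall fun m => sq_nonneg _), ENNReal.ofReal_le_ofReal_iff hs.le] at hk
  have h4 : ∫ m in Ioo 0 s, (1 + ρ * AA r1 r2 m) ^ 2 =
      s + 2 * ρ * (∫ m in Ioo 0 s, AA r1 r2 m) + ρ ^ 2 * (∫ m in Ioo 0 s, (AA r1 r2 m) ^ 2) := by
    have e1 : (fun m => (1 + ρ * AA r1 r2 m) ^ 2) =
        fun m => (1 + (2 * ρ) * AA r1 r2 m) + ρ ^ 2 * (AA r1 r2 m) ^ 2 := by
      ext m; ring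
    rw [e1, integral_add, integral_add, integral_const_mul, integral_const_mul]
    · simp [hs.le]
    · exact integrableOn_const (by simp)
    · exact i1.const_mul _
    · exact Integrable.add (integrableOn_const (by simp)) (i1.const_mul _)
    · exact i2.const_mul _
  rw [h4] at hk
  have h5 : ρ * (2 * (∫ m in Ioo 0 s, AA r1 r2 m) + ρ * (∫ m in Ioo 0 s, (AA r1 r2 m) ^ 2)) ≤ 0 := by
    nlinarith
  by_contra h6
  push Not at h6
  have := mul_pos hρ h6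
  linarith

theorem coreB {D : Set E} (hc : IsCompact D) (hv : Convex ℝ D) {s : ℝ} (hs : 0 < s)
    (hmax : MaxArea D s) {O e1 e2 z : E} (he1 : ‖e1‖ = 1) (he2 : ‖e2‖ = 1) (hz : ‖z‖ = 1)
    (he1z : ⟪e1, z⟫_ℝ = 0) (he2z : ⟪e2, z⟫_ℝ = 0) (he12 : ⟪e1, e2⟫_ℝ < 1)
    (s1 : ∀ p ∈ slice D O e1 z, 0 < p.1) (s2 : ∀ p ∈ slice D O e2 z, 0 < p.1)
    (v1 : volume (slice D O e1 z) = ENNReal.ofReal s)
    (v2 : volume (slice D O e2 z) = ENNReal.ofReal s) : False := by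
  obtain ⟨r1, g1, l1, hg1c, H1⟩ := tl1 (slice_compact hc he1 hz he1z) (slice_convex hv _ _ _) hs v1
  obtain ⟨r2, g2, l2, hg2c, H2⟩ := tl1 (slice_compact hc he2 hz he2z) (slice_convex hv _ _ _) hs v2
  have mem1 : ∀ m ∈ Ioo 0 s, (r1 m, l1 m) ∈ slice D O e1 z := fun m hm =>
    (H1 m hm).2.2 _ ⟨le_rfl, by linarith [(H1 m hm).1]⟩
  have mem2 : ∀ m ∈ Ioo 0 s, (r2 m, l2 m) ∈ slice D O e2 z := fun m hm =>
    (H2 m hm).2.2 _ ⟨le_rfl, by linarith [(H2 m hm).1]⟩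
  have bound : ∀ e : E, ‖e‖ = 1 → ⟪e, z⟫_ℝ = 0 → (∀ p ∈ slice D O e z, 0 < p.1) →
      ∃ ρ R : ℝ, 0 < ρ ∧ ∀ p ∈ slice D O e z, ρ < p.1 ∧ p.1 ≤ R := by
    intro e he hez hsl
    have hcomp := slice_compact hc (x := O) he hz hez
    rcases (slice D O e z).eq_empty_or_nonempty with h | h
    · exact ⟨1, 1, one_pos, by rw [h]; simp⟩
    · obtain ⟨p, hp, hmin⟩ := hcomp.exists_isMinOn h continuous_fst.continuousOn
      obtain ⟨q, hq, hmx⟩ := hcomp.exists_isMaxOn h continuous_fst.continuousOn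
      refine ⟨p.1 / 2, q.1, by linarith [hsl p hp], fun y hy => ⟨?_, hmx hy⟩⟩
      have := hmin hy
      have : p.1 ≤ y.1 := this
      linarith [hsl p hp]
  obtain ⟨ρa, Ra, hρa, ba⟩ := bound e1 he1 he1z s1
  obtain ⟨ρb, Rb, hρb, bb⟩ := bound e2 he2 he2z s2
  set ρ := min ρa ρb with hρ
  set R := max Ra Rb with hR
  have hρ0 : 0 < ρ := lt_min hρa hρb
  have p1 : ∀ m ∈ Ioo 0 s, ρ < r1 m := fun m hm => (min_le_left _ _).trans_lt (ba _ (mem1 m hm)).1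
  have p2 : ∀ m ∈ Ioo 0 s, ρ < r2 m := fun m hm => (min_le_right _ _).trans_lt (bb _ (mem2 m hm)).1
  have q1 : ∀ m ∈ Ioo 0 s, r1 m ≤ R := fun m hm => (ba _ (mem1 m hm)).2.trans (le_max_left _ _)
  have q2 : ∀ m ∈ Ioo 0 s, r2 m ≤ R := fun m hm => (bb _ (mem2 m hm)).2.trans (le_max_right _ _)
  have hg1 : ∀ m ∈ Ioo 0 s, 0 < g1 m := fun m hm => (H1 m hm).1
  have hg2 : ∀ m ∈ Ioo 0 s, 0 < g2 m := fun m hm => (H2 m hm).1
  have hr1 : ∀ m ∈ Ioo 0 s, HasDerivAt r1 (1 / g1 m) m := fun m hm => (H1 m hm).2.1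
  have hr2 : ∀ m ∈ Ioo 0 s, HasDerivAt r2 (1 / g2 m) m := fun m hm => (H2 m hm).2.1
  have h1 := fun m hm => (H1 m hm).2.2
  have h2 := fun m hm => (H2 m hm).2.2
  have I1 := B1 hc hv hs hmax he2 hz he2z r1 r2 g1 g2 l1 l2 hρ0 hg1 hg2 hr1 hr2 p1
    (fun m hm => hρ0.trans (p2 m hm)) q2 h1 h2
  have I2 := B1 hc hv hs hmax he1 hz he1z r2 r1 g2 g1 l2 l1 hρ0 hg2 hg1 hr2 hr1 p2
    (fun m hm => hρ0.trans (p1 m hm)) q1 h2 h1
  have c1 : ContinuousOn r1 (Ioo 0 s) := fun m hm => (hr1 m hm).continuousAt.continuousWithinAt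
  have c2 : ContinuousOn r2 (Ioo 0 s) := fun m hm => (hr2 m hm).continuousAt.continuousWithinAt
  obtain ⟨i1, i1'⟩ := AA_int hρ0 c1 c2 p1 q2
  obtain ⟨i2, i2'⟩ := AA_int hρ0 c2 c1 p2 q1
  have hsum : 0 ≤ (∫ m in Ioo 0 s, AA r1 r2 m) + ∫ m in Ioo 0 s, AA r2 r1 m := by
    rw [← integral_add i1 i2]
    refine setIntegral_nonneg measurableSet_Ioo ?_
    intro m hm
    have a4 : 0 < r1 m := hρ0.trans (p1 m hm)
    have a5 : 0 < r2 m := hρ0.trans (p2 m hm)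
    simp only [AA]
    obtain ⟨X, hX, hX0⟩ : ∃ X, X ^ 2 = r1 m ∧ 0 < X :=
      ⟨√(r1 m), Real.sq_sqrt a4.le, Real.sqrt_pos.2 a4⟩
    obtain ⟨Y, hY, hY0⟩ : ∃ Y, Y ^ 2 = r2 m ∧ 0 < Y :=
      ⟨√(r2 m), Real.sq_sqrt a5.le, Real.sqrt_pos.2 a5⟩
    rw [← hX, ← hY, Real.sqrt_sq hX0.le, Real.sqrt_sq hY0.le]
    have : Y / (X ^ 2 * X) - 1 / X ^ 2 + (X / (Y ^ 2 * Y) - 1 / Y ^ 2) =
        (X - Y) ^ 2 * (X ^ 2 + X * Y + Y ^ 2) / (X ^ 3 * Y ^ 3) := by
      field_simp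
      ring
    rw [this]
    positivity
  have n1 : 0 ≤ ∫ m in Ioo 0 s, (AA r1 r2 m) ^ 2 :=
    setIntegral_nonneg measurableSet_Ioo fun m _ => sq_nonneg _
  have n2 : 0 ≤ ∫ m in Ioo 0 s, (AA r2 r1 m) ^ 2 :=
    setIntegral_nonneg measurableSet_Ioo fun m _ => sq_nonneg _
  have z1 : ∫ m in Ioo 0 s, (AA r1 r2 m) ^ 2 = 0 := by
    have b1 : 0 ≤ ρ * ∫ m in Ioo 0 s, (AA r1 r2 m) ^ 2 := mul_nonneg hρ0.le n1
    have b2 : 0 ≤ ρ * ∫ m in Ioo 0 s, (AA r2 r1 m) ^ 2 := mul_nonneg hρ0.le n2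
    have b3 : ρ * (∫ m in Ioo 0 s, (AA r1 r2 m) ^ 2) = 0 := by linarith
    rcases mul_eq_zero.1 b3 with h | h
    · linarith
    · exact h
  have hcA := AA_cont c1 c2 (fun m hm => hρ0.trans (p1 m hm))
  have hae : (fun m => (AA r1 r2 m) ^ 2) =ᵐ[volume.restrict (Ioo 0 s)] (fun _ => (0:ℝ)) :=
    (integral_eq_zero_iff_of_nonneg (fun m => sq_nonneg _) i1').1 z1
  have heq := Measure.eqOn_open_of_ae_eq hae isOpen_Ioo (hcA.pow 2) continuousOn_const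
  have hrr : ∀ m ∈ Ioo 0 s, r1 m = r2 m := by
    intro m hm
    have a4 : 0 < r1 m := hρ0.trans (p1 m hm)
    have a5 : 0 < r2 m := hρ0.trans (p2 m hm)
    have h0 : AA r1 r2 m = 0 := by
      have := heq hm
      exact pow_eq_zero_iff (two_ne_zero) |>.1 this
    simp only [AA] at h0
    have hX0 := Real.sqrt_pos.2 a4
    have h3 : √(r2 m) = √(r1 m) := by
      field_simp at h0
      linarith
    have := Real.sqrt_inj a5.le a4.le |>.1 h3
    exact this.symm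
  have hgg : ∀ m ∈ Ioo 0 s, g1 m = g2 m := by
    intro m hm
    have h3 : HasDerivAt r2 (1 / g1 m) m := by
      refine (hr1 m hm).congr_of_eventuallyEq ?_
      filter_upwards [Ioo_mem_nhds hm.1 hm.2] with y hy
      exact (hrr y hy).symm
    have h4 := h3.unique (hr2 m hm)
    have := hg1 m hm
    have := hg2 m hm
    field_simp at h4
    linarith
  -- the crossing plane
  set ρ2 := R + 1 with hρ2
  have hRρ : ρ < R := by
    have hm : s / 2 ∈ Ioo 0 s := ⟨by linarith, by linarith⟩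
    exact (p1 _ hm).trans_le (q1 _ hm)
  set T := ρ2 - ρ with hT
  have hT0 : 0 < T := by rw [hT, hρ2]; linarith
  set v : E := ρ2 • e2 - ρ • e1 with hvdef
  set L := ‖v‖ with hL
  have hLT : T < L := by
    have h3 : L ^ 2 = ρ2 ^ 2 - 2 * (ρ2 * ρ * ⟪e1, e2⟫_ℝ) + ρ ^ 2 := by
      rw [hL, hvdef, norm_sub_sq_real, norm_smul, norm_smul, he1, he2, real_inner_smul_left,
        real_inner_smul_right, real_inner_comm]
      simp only [Real.norm_eq_abs, mul_one, sq_abs]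
      ring
    have h4 : T ^ 2 < L ^ 2 := by
      rw [h3, hT]
      have : 0 < ρ2 * ρ * (1 - ⟪e1, e2⟫_ℝ) := by
        apply mul_pos (mul_pos _ hρ0) (by linarith)
        linarith
      nlinarith
    exact lt_of_pow_lt_pow_left₀ 2 (norm_nonneg _) h4
  have hL0 : 0 < L := by linarith
  have hne' : ‖(1 / L) • v‖ = 1 := by
    rw [norm_smul, ← hL, Real.norm_of_nonneg (by positivity)]
    field_simp
  have hez' : ⟪(1 / L) • v, z⟫_ℝ = 0 := by
    rw [real_inner_smul_left, hvdef, inner_sub_left, real_inner_smul_left, real_inner_smul_left,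
      he1z, he2z]
    ring
  have key := tl2 (slice_closed hc.isClosed (O + ρ • e1) ((1 / L) • v) z).measurableSet (s := s)
    (fun m => L * ((r1 m - ρ) / T)) (fun m => L * ((1 / g1 m) / T))
    (fun m => (1 - ρ2 * (r1 m - ρ) / (r1 m * T)) * l1 m + ρ2 * (r1 m - ρ) / (r1 m * T) * l2 m)
    (fun m => (1 - ρ2 * (r1 m - ρ) / (r1 m * T)) * g1 m + ρ2 * (r1 m - ρ) / (r1 m * T) * g2 m)
    (fun m => L / T)
    (by
      intro m hm
      have := ((hr1 m hm).sub_const ρ).div_const T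
      exact this.const_mul L)
    (by
      intro m hm
      have := hg1 m hm
      positivity)
    (by
      intro m hm
      have a1 := p1 m hm
      have a2 : 0 < r1 m := hρ0.trans a1
      have a3 := q1 m hm
      have t0 : 0 ≤ ρ2 * (r1 m - ρ) / (r1 m * T) := by
        apply div_nonneg
        · apply mul_nonneg
          · linarith
          · linarith
        · positivity
      have t1 : ρ2 * (r1 m - ρ) / (r1 m * T) ≤ 1 := by
        rw [div_le_one (by positivity), hT]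
        have : 0 ≤ ρ * (ρ2 - r1 m) := mul_nonneg hρ0.le (by linarith)
        nlinarith
      refine tl3 hv (h1 m hm) (h2 m hm) (hg1 m hm) (hg2 m hm) t0 t1 ?_
      rw [← hrr m hm]
      set t := ρ2 * (r1 m - ρ) / (r1 m * T) with ht
      set τ := (r1 m - ρ) / T with hτ
      have ht' : t * r1 m = τ * ρ2 := by rw [ht, hτ]; field_simp
      have hτ' : τ * T = r1 m - ρ := by rw [hτ]; field_simp
      have e3 : (1 - t) * r1 m = (1 - τ) * ρ := by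
        have : (1 - t) * r1 m = r1 m - τ * ρ2 := by rw [← ht']; ring
        rw [this]
        rw [hT] at hτ'
        linarith
      have e4 : (L * τ) • (1 / L) • v = τ • v := by
        rw [smul_smul]
        congr 1
        field_simp
      rw [e4, hvdef]
      calc O + ρ • e1 + τ • (ρ2 • e2 - ρ • e1) = O + ((1 - τ) * ρ) • e1 + (τ * ρ2) • e2 := by module
        _ = O + ((1 - t) * r1 m) • e1 + (t * r1 m) • e2 := by rw [e3, ht']
        _ = _ := by module)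
    (by
      intro m hm
      have hgm := hg1 m hm
      have a2 : 0 < r1 m := hρ0.trans (p1 m hm)
      apply le_of_eq
      rw [← hgg m hm]
      field_simp
      ring)
  have h3 : ∫⁻ m in Ioo 0 s, ENNReal.ofReal (L / T) = ENNReal.ofReal (L / T * s) := by
    rw [setLIntegral_const, Real.volume_Ioo, ENNReal.ofReal_mul (by positivity)]
    simp
  rw [h3] at key
  have h4 := key.trans (hmax _ _ _ hne' hz hez')
  rw [ENNReal.ofReal_le_ofReal_iff hs.le] at h4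
  have h5 : 1 < L / T := by
    rw [one_lt_div hT0]; linarith
  nlinarith

end

end R166
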