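import Mathlib
import Pool.Agent.R166.MeyerB

open Set MeasureTheory Topology

namespace R166

noncomputable section

open scoped InnerProductSpace

theorem slice_lin (D : Set E) (x : E) {e f e' f' : E} {a b c d : ℝ}
    (he : e = a • e' + c • f') (hf : f = b • e' + d • f') (hdet : |a * d - b * c| = 1) :
    volume (slice D x e f) = volume (slice D x e' f') := by
  have hd : a * d - b * c ≠ 0 := by
    intro h; rw [h] at hdet; simp at hdet
  set M := Matrix.toLin (Module.Basis.finTwoProd ℝ) (Module.Basis.finTwoProd ℝ) !![a, b; c, d] with hM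
  have hdM : LinearMap.det M = a * d - b * c := by
    rw [hM, LinearMap.det_toLin, Matrix.det_fin_two_of]
  have h1 : slice D x e f = M ⁻¹' (slice D x e' f') := by
    ext p
    simp only [slice, mem_preimage, Set.mem_ofPred_eq, hM, Matrix.toLin_finTwoProd_apply]
    rw [he, hf]
    have : x + p.1 • (a • e' + c • f') + p.2 • (b • e' + d • f') =
        x + (a * p.1 + b * p.2) • e' + (c * p.1 + d * p.2) • f' := by module
    rw [this]
  rw [h1, Measure.addHaar_preimage_linearMap volume (by rw [hdM]; exact hd), hdM, abs_inv, hdet]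
  simp

theorem slice_base (D : Set E) (x e f : E) (a b : ℝ) :
    volume (slice D (x + a • e + b • f) e f) = volume (slice D x e f) := by
  have h1 : slice D (x + a • e + b • f) e f = (fun p => p + (a, b)) ⁻¹' (slice D x e f) := by
    ext p
    simp only [slice, mem_preimage, Set.mem_ofPred_eq, Prod.fst_add, Prod.snd_add]
    have : x + a • e + b • f + p.1 • e + p.2 • f = x + (p.1 + a) • e + (p.2 + b) • f := by module
    rw [this]
  rw [h1, measure_preimage_add_right]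

theorem sign_of {C : Set (ℝ × ℝ)} (hv : Convex ℝ C) (h0 : ∀ ζ : ℝ, ((0 : ℝ), ζ) ∉ C) :
    (∀ p ∈ C, 0 < p.1) ∨ (∀ p ∈ C, p.1 < 0) := by
  by_contra h
  push Not at h
  obtain ⟨⟨p, hp, hp0⟩, ⟨q, hq, hq0⟩⟩ := h
  have hp1 : p.1 < 0 := by
    refine lt_of_le_of_ne hp0 fun h => h0 p.2 ?_
    rw [← h]; exact hp
  have hq1 : 0 < q.1 := by
    refine lt_of_le_of_ne hq0 fun h => h0 q.2 ?_
    rw [h]; exact hq
  have hpos : 0 < q.1 - p.1 := by linarith
  have h2 := hv hp hq (a := q.1 / (q.1 - p.1)) (b := -p.1 / (q.1 - p.1)) (by positivity)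
    (div_nonneg (by linarith) hpos.le) (by field_simp; ring)
  have h3 : ((q.1 / (q.1 - p.1)) • p + (-p.1 / (q.1 - p.1)) • q).1 = 0 := by
    simp only [Prod.fst_add, Prod.smul_fst, smul_eq_mul]
    field_simp
    ring
  refine h0 ((q.1 / (q.1 - p.1)) • p + (-p.1 / (q.1 - p.1)) • q).2 ?_
  rw [← h3]
  exact h2

theorem exists_sign {D : Set E} (hv : Convex ℝ D) {O e z : E}
    (h0 : ∀ ζ : ℝ, ((0 : ℝ), ζ) ∉ slice D O e z) :
    ∃ e' : E, (e' = e ∨ e' = -e) ∧ ∀ p ∈ slice D O e' z, 0 < p.1 := by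
  rcases sign_of (slice_convex hv O e z) h0 with h | h
  · exact ⟨e, Or.inl rfl, h⟩
  · refine ⟨-e, Or.inr rfl, fun p hp => ?_⟩
    have h1 : ((-p.1, p.2) : ℝ × ℝ) ∈ slice D O e z := by
      have hp' : O + p.1 • (-e) + p.2 • z ∈ D := hp
      show O + (-p.1) • e + p.2 • z ∈ D
      have : O + (-p.1) • e + p.2 • z = O + p.1 • (-e) + p.2 • z := by module
      rw [this]; exact hp'
    have := h _ h1
    simp only at this
    linarith

theorem exists_third {e z : E} (he : ‖e‖ = 1) (hz : ‖z‖ = 1) (hez : ⟪e, z⟫_ℝ = 0) :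
    ∃ n : E, ‖n‖ = 1 ∧ ⟪e, n⟫_ℝ = 0 ∧ ⟪n, z⟫_ℝ = 0 ∧
      ∀ y : E, y = ⟪e, y⟫_ℝ • e + ⟪z, y⟫_ℝ • z + ⟪n, y⟫_ℝ • n := by
  have hv : Orthonormal ℝ ((({0, 1} : Set (Fin 3))).domRestrict (![e, z, 0] : Fin 3 → E)) := by
    rw [orthonormal_iff_ite]
    rintro ⟨i, hi⟩ ⟨j, hj⟩
    have hze : ⟪z, e⟫_ℝ = 0 := by rw [real_inner_comm]; exact hez
    rcases hi with rfl | rfl <;> rcases hj with rfl | rfl <;>
      simp [Set.domRestrict, he, hz, hez, hze, Subtype.ext_iff]
  obtain ⟨b, hb⟩ := hv.exists_orthonormalBasis_extension_of_card_eq (by simp)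
  have b0 : b 0 = e := by simpa using hb 0 (by simp)
  have b1 : b 1 = z := by simpa using hb 1 (by simp)
  refine ⟨b 2, b.norm_eq_one 2, ?_, ?_, ?_⟩
  · rw [← b0]; exact b.inner_eq_zero (by decide)
  · rw [← b1]; exact b.inner_eq_zero (by decide)
  · intro y
    have := b.sum_repr' y
    rw [Fin.sum_univ_three, b0, b1] at this
    exact this.symm

/-- Meyer's theorem for two frames sharing the second vector. -/
theorem meyer2 {D : Set E} (hc : IsCompact D) (hv : Convex ℝ D) {s : ℝ} (hs : 0 < s)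
    (hmax : MaxArea D s) {x1 e1 x2 e2 z : E} (he1 : ‖e1‖ = 1) (he2 : ‖e2‖ = 1) (hz : ‖z‖ = 1)
    (he1z : ⟪e1, z⟫_ℝ = 0) (he2z : ⟪e2, z⟫_ℝ = 0)
    (v1 : volume (slice D x1 e1 z) = ENNReal.ofReal s)
    (v2 : volume (slice D x2 e2 z) = ENNReal.ofReal s)
    (hno : ∀ p ∈ slice D x1 e1 z, ∀ q : ℝ × ℝ,
      x1 + p.1 • e1 + p.2 • z ≠ x2 + q.1 • e2 + q.2 • z) : False := by
  obtain ⟨n, hn, hen, hnz, hrep⟩ := exists_third he1 hz he1z
  set k := ⟪e1, e2⟫_ℝ with hk
  set k' := ⟪n, e2⟫_ℝ with hk'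
  have hze2 : ⟪z, e2⟫_ℝ = 0 := by rw [real_inner_comm]; exact he2z
  have re2 : e2 = k • e1 + k' • n := by
    have := hrep e2
    rw [hze2] at this
    rw [← hk, ← hk'] at this
    simpa using this
  have hkk : k ^ 2 + k' ^ 2 = 1 := by
    have := norm_comb he1 hn hen k k'
    rw [← re2, he2] at this
    linarith
  obtain ⟨A, B, C, hd⟩ : ∃ A B C : ℝ, x2 - x1 = A • e1 + B • z + C • n := ⟨_, _, _, hrep _⟩
  have hx2 : x2 = x1 + A • e1 + B • z + C • n := by
    rw [add_assoc, add_assoc, ← add_assoc (A • e1), ← hd]; abel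
  have hne : (slice D x1 e1 z).Nonempty := by
    by_contra h
    rw [not_nonempty_iff_eq_empty] at h
    rw [h, measure_empty] at v1
    have : 0 < ENNReal.ofReal s := ENNReal.ofReal_pos.2 hs
    rw [← v1] at this
    exact lt_irrefl _ this
  by_cases hk0 : k' = 0
  · -- parallel planes
    rw [hk0] at re2 hkk
    have hk1 : k ^ 2 = 1 := by linarith
    have re2' : e2 = k • e1 := by simpa using re2
    have v2' : volume (slice D (x1 + C • n) e1 z) = ENNReal.ofReal s := by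
      rw [← slice_base D (x1 + C • n) e1 z A B]
      have : x1 + C • n + A • e1 + B • z = x2 := by rw [hx2]; abel
      rw [this, ← v2]
      symm
      refine slice_lin D x2 (a := k) (b := 0) (c := 0) (d := 1) (by rw [re2']; simp) (by simp) ?_
      have : |k| ^ 2 = 1 := by rw [sq_abs]; exact hk1
      have h0 : 0 ≤ |k| := abs_nonneg k
      have h1 : |k| = 1 := by nlinarith
      simpa using h1
    by_cases hC : C = 0
    · obtain ⟨p, hp⟩ := hne
      refine hno p hp (k * (p.1 - A), p.2 - B) ?_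
      simp only
      rw [hx2, hC, re2', smul_smul]
      have : k * (p.1 - A) * k = p.1 - A := by
        calc k * (p.1 - A) * k = k ^ 2 * (p.1 - A) := by ring
          _ = p.1 - A := by rw [hk1]; ring
      rw [this]
      module
    · exact coreA hc hv hs hmax he1 hz hn he1z hen hnz hC v1 v2'
  · -- crossing planes
    set α := A - C * k / k' with hα
    set O := x1 + α • e1 with hO
    have hn' : n = (1 / k') • e2 - (k / k') • e1 := by
      rw [re2, smul_add, smul_smul, smul_smul]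
      have : 1 / k' * k' = 1 := by field_simp
      rw [this]
      have h2 : 1 / k' * k = k / k' := by ring
      rw [h2]
      module
    have hOx2 : O = x2 + (-(C / k')) • e2 + (-B) • z := by
      rw [hx2, hO, hα]
      have : C • n = (C / k') • e2 - (C * k / k') • e1 := by
        conv_lhs => rw [hn']
        rw [smul_sub, smul_smul, smul_smul]
        congr 2 <;> ring
      rw [this]
      module
    have w1 : volume (slice D O e1 z) = ENNReal.ofReal s := by
      have := slice_base D x1 e1 z α 0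
      rw [zero_smul, add_zero, ← hO] at this
      rw [this, v1]
    have w2 : volume (slice D O e2 z) = ENNReal.ofReal s := by
      rw [hOx2, slice_base, v2]
    have n1 : ∀ ζ : ℝ, ((0 : ℝ), ζ) ∉ slice D O e1 z := by
      intro ζ h
      have h' : O + (0:ℝ) • e1 + ζ • z ∈ D := h
      have hmem : ((α, ζ) : ℝ × ℝ) ∈ slice D x1 e1 z := by
        show x1 + α • e1 + ζ • z ∈ D
        rw [← hO]; simpa using h'
      refine hno _ hmem (-(C / k'), ζ - B) ?_
      simp only
      rw [← hO, hOx2]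
      module
    have n2 : ∀ ζ : ℝ, ((0 : ℝ), ζ) ∉ slice D O e2 z := by
      intro ζ h
      have h' : O + (0:ℝ) • e2 + ζ • z ∈ D := h
      refine n1 ζ ?_
      show O + (0:ℝ) • e1 + ζ • z ∈ D
      simpa using h'
    obtain ⟨f1, hf1, t1⟩ := exists_sign hv n1
    obtain ⟨f2, hf2, t2⟩ := exists_sign hv n2
    have hk1 : -1 < k ∧ k < 1 := by
      have : 0 < k' ^ 2 := by positivity
      constructor <;> nlinarith
    have vol_flip : ∀ e : E, volume (slice D O (-e) z) = volume (slice D O e z) := by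
      intro e
      refine slice_lin D O (a := -1) (b := 0) (c := 0) (d := 1) (by simp) (by simp) (by simp)
    refine coreB hc hv hs hmax (O := O) (e1 := f1) (e2 := f2) (z := z) ?_ ?_ hz ?_ ?_ ?_ t1 t2 ?_ ?_
    · rcases hf1 with h | h <;> rw [h] <;> simp [he1]
    · rcases hf2 with h | h <;> rw [h] <;> simp [he2]
    · rcases hf1 with h | h <;> rw [h] <;> simp [he1z]
    · rcases hf2 with h | h <;> rw [h] <;> simp [he2z]
    · rcases hf1 with h | h <;> rcases hf2 with h' | h' <;> rw [h, h'] <;>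
        simp only [inner_neg_left, inner_neg_right, neg_neg, ← hk] <;> linarith [hk1.1, hk1.2]
    · rcases hf1 with h | h <;> rw [h]
      · exact w1
      · rw [vol_flip, w1]
    · rcases hf2 with h | h <;> rw [h]
      · exact w2
      · rw [vol_flip, w2]

theorem reframe {e f : E} (he : ‖e‖ = 1) (hf : ‖f‖ = 1) (hef : ⟪e, f⟫_ℝ = 0) {α β : ℝ}
    (hαβ : α ^ 2 + β ^ 2 = 1) :
    ‖β • e - α • f‖ = 1 ∧ ‖α • e + β • f‖ = 1 ∧ ⟪β • e - α • f, α • e + β • f⟫_ℝ = 0 := by
  have h1 : ‖β • e + (-α) • f‖ ^ 2 = 1 := by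
    rw [norm_comb he hf hef]; nlinarith
  have h2 : ‖α • e + β • f‖ ^ 2 = 1 := by
    rw [norm_comb he hf hef]; nlinarith
  have e1 : β • e - α • f = β • e + (-α) • f := by module
  have hfe : ⟪f, e⟫_ℝ = 0 := by rw [real_inner_comm]; exact hef
  refine ⟨?_, ?_, ?_⟩
  · rw [e1]
    have := norm_nonneg (β • e + (-α) • f)
    nlinarith
  · have := norm_nonneg (α • e + β • f)
    nlinarith
  · rw [inner_sub_left, inner_add_right, inner_add_right]
    simp only [real_inner_smul_left, real_inner_smul_right, hef, hfe, real_inner_self_eq_norm_sq,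
      he, hf]
    ring

/-- **Meyer's theorem**: two plane sections of maximal area always meet. -/
theorem meyer {D : Set E} (hc : IsCompact D) (hv : Convex ℝ D) {s : ℝ} (hs : 0 < s)
    (hmax : ∀ x e f : E, ‖e‖ = 1 → ‖f‖ = 1 → ⟪e, f⟫_ℝ = 0 →
      volume (slice D x e f) ≤ ENNReal.ofReal s)
    {x1 e1 f1 x2 e2 f2 : E} (he1 : ‖e1‖ = 1) (hf1 : ‖f1‖ = 1) (hef1 : ⟪e1, f1⟫_ℝ = 0)
    (he2 : ‖e2‖ = 1) (hf2 : ‖f2‖ = 1) (hef2 : ⟪e2, f2⟫_ℝ = 0)
    (v1 : volume (slice D x1 e1 f1) = ENNReal.ofReal s)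
    (v2 : volume (slice D x2 e2 f2) = ENNReal.ofReal s) :
    ∃ p1 ∈ slice D x1 e1 f1, ∃ p2 ∈ slice D x2 e2 f2,
      x1 + p1.1 • e1 + p1.2 • f1 = x2 + p2.1 • e2 + p2.2 • f2 := by
  by_contra hcon
  push Not at hcon
  -- a common direction
  have hdep : ¬ LinearIndependent ℝ ![e1, f1, e2, f2] := by
    intro h
    have := h.fintype_card_le_finrank
    simp at this
  rw [Fintype.not_linearIndependent_iff] at hdep
  obtain ⟨g, hg, i, hi⟩ := hdep
  rw [Fin.sum_univ_four] at hg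
  simp only [Matrix.cons_val_zero, Matrix.cons_val_one, Matrix.cons_val] at hg
  have hz1 : ‖g 0 • e1 + g 1 • f1‖ ^ 2 = g 0 ^ 2 + g 1 ^ 2 := norm_comb he1 hf1 hef1 _ _
  have hz2 : ‖(-g 2) • e2 + (-g 3) • f2‖ ^ 2 = (-g 2) ^ 2 + (-g 3) ^ 2 :=
    norm_comb he2 hf2 hef2 _ _
  have hzz : g 0 • e1 + g 1 • f1 = (-g 2) • e2 + (-g 3) • f2 := by
    have : g 0 • e1 + g 1 • f1 - ((-g 2) • e2 + (-g 3) • f2) =
      g 0 • e1 + g 1 • f1 + g 2 • e2 + g 3 • f2 := by module
    rw [hg] at this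
    exact sub_eq_zero.1 this
  set N := ‖g 0 • e1 + g 1 • f1‖ with hN
  rw [← hzz] at hz2
  rw [← hN] at hz2
  have hN0 : 0 < N := by
    refine lt_of_le_of_ne (norm_nonneg _) fun h => hi ?_
    rw [← h] at hz1 hz2
    have a0 : g 0 = 0 := by nlinarith [sq_nonneg (g 0), sq_nonneg (g 1)]
    have a1 : g 1 = 0 := by nlinarith [sq_nonneg (g 0), sq_nonneg (g 1)]
    have a2 : g 2 = 0 := by nlinarith [sq_nonneg (g 2), sq_nonneg (g 3)]
    have a3 : g 3 = 0 := by nlinarith [sq_nonneg (g 2), sq_nonneg (g 3)]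
    fin_cases i <;> assumption
  have k1 : (g 0 / N) ^ 2 + (g 1 / N) ^ 2 = 1 := by
    field_simp; linarith
  have k2 : (-g 2 / N) ^ 2 + (-g 3 / N) ^ 2 = 1 := by
    field_simp; linarith
  have hzeq : (g 0 / N) • e1 + (g 1 / N) • f1 = (-g 2 / N) • e2 + (-g 3 / N) • f2 := by
    have := congrArg (fun y => (1 / N) • y) hzz
    simp only [smul_add, smul_smul] at this
    convert this using 2 <;> · congr 1; ring
  obtain ⟨a1, b1, c1⟩ := reframe he1 hf1 hef1 k1
  obtain ⟨a2, b2, c2⟩ := reframe he2 hf2 hef2 k2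
  have vol_re : ∀ (x e f : E) (α β : ℝ), α ^ 2 + β ^ 2 = 1 →
      volume (slice D x e f) = volume (slice D x (β • e - α • f) (α • e + β • f)) := by
    intro x e f α β h
    refine slice_lin D x (a := β) (b := -α) (c := α) (d := β) ?_ ?_ ?_
    · have : β • (β • e - α • f) + α • (α • e + β • f) = (α ^ 2 + β ^ 2) • e := by module
      rw [this, h, one_smul]
    · have : (-α) • (β • e - α • f) + β • (α • e + β • f) = (α ^ 2 + β ^ 2) • f := by module
      rw [this, h, one_smul]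
    · have : β * β - -α * α = α ^ 2 + β ^ 2 := by ring
      rw [this, h]; simp
  rw [vol_re x1 e1 f1 _ _ k1] at v1
  rw [vol_re x2 e2 f2 _ _ k2, ← hzeq] at v2
  rw [← hzeq] at c2
  refine meyer2 hc hv hs hmax a1 a2 b1 c1 c2 v1 v2 ?_
  intro p hp q heq
  rw [hzeq] at heq
  have hpD : x1 + p.1 • ((g 1 / N) • e1 - (g 0 / N) • f1) +
    p.2 • ((g 0 / N) • e1 + (g 1 / N) • f1) ∈ D := hp
  rw [hzeq] at hpD
  have q1 : x1 + p.1 • ((g 1 / N) • e1 - (g 0 / N) • f1) +
    p.2 • ((g 0 / N) • e1 + (g 1 / N) • f1) = x1 + (g 1 / N * p.1 + g 0 / N * p.2) • e1 +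
      (-(g 0 / N) * p.1 + g 1 / N * p.2) • f1 := by module
  have q2 : x2 + q.1 • ((-g 3 / N) • e2 - (-g 2 / N) • f2) +
    q.2 • ((-g 2 / N) • e2 + (-g 3 / N) • f2) = x2 + (-g 3 / N * q.1 + -g 2 / N * q.2) • e2 +
      (-(-g 2 / N) * q.1 + -g 3 / N * q.2) • f2 := by module
  refine hcon (g 1 / N * p.1 + g 0 / N * p.2, -(g 0 / N) * p.1 + g 1 / N * p.2) ?_
    (-g 3 / N * q.1 + -g 2 / N * q.2, -(-g 2 / N) * q.1 + -g 3 / N * q.2) ?_ ?_
  · show x1 + (g 1 / N * p.1 + g 0 / N * p.2) • e1 +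
      (-(g 0 / N) * p.1 + g 1 / N * p.2) • f1 ∈ D
    rw [← q1, hzeq]; exact hpD
  · show x2 + (-g 3 / N * q.1 + -g 2 / N * q.2) • e2 +
      (-(-g 2 / N) * q.1 + -g 3 / N * q.2) • f2 ∈ D
    rw [← q2, ← heq]; exact hpD
  · simp only
    rw [← q1, ← q2, hzeq]; exact heq

end

end R166
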